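import Pool.Agent.Helper18.NF.StA
import Pool.Agent.Helper18.NF.Basic
import Pool.Agent.Helper37.BV.SiegelReal

/-!
# NF-17: Siegel's lower bound for `L(1, χ)`, real primitive characters, for systems
-/

set_option autoImplicit false

open Complex Filter Topology
open Pool.Agent.Helper18.BV Pool.Agent.Helper18.NF

namespace Pool.Agent.Helper64.NF

/-- the half-plane `Re s > 1 - 1/n` -/
def HP (n : ℕ) : Set ℂ := {s : ℂ | 1 - 1 / (n : ℝ) < s.re}

theorem isOpen_HP (n : ℕ) : IsOpen (HP n) := isOpen_lt continuous_const Complex.continuous_re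

theorem inv_pos' {n : ℕ} (hn : 1 ≤ n) : 0 < 1 / (n : ℝ) := by
  have : (0 : ℝ) < n := by exact_mod_cast hn
  positivity

theorem inv_le' {n : ℕ} (hn : 1 ≤ n) : 1 / (n : ℝ) ≤ 1 := by
  have : (1 : ℝ) ≤ n := by exact_mod_cast hn
  rw [div_le_iff₀ (by linarith)]
  linarith

theorem one_mem_HP {n : ℕ} (hn : 1 ≤ n) : (1 : ℂ) ∈ HP n := by
  have := inv_pos' hn
  simp only [HP, Set.mem_ofPred_eq, Complex.one_re]
  linarith

theorem mem_HP_of_one_lt {n : ℕ} (hn : 1 ≤ n) {s : ℂ} (hs : 1 < s.re) : s ∈ HP n := by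
  have := inv_pos' hn
  simp only [HP, Set.mem_ofPred_eq]
  linarith

/-- the radius -/
noncomputable def rad (n : ℕ) : ℝ := 1 / (3 * n)

theorem rad_eq (n : ℕ) : rad n = 1 / (n : ℝ) / 3 := by
  unfold rad
  rw [div_div, mul_comm]

theorem ball_sub {n : ℕ} (hn : 1 ≤ n) : Metric.ball (2 : ℂ) (1 + 2 * rad n) ⊆ HP n := by
  intro s hs
  rw [Metric.mem_ball, dist_eq_norm] at hs
  have h1 := abs_le.1 (Complex.abs_re_le_norm (s - 2))
  simp only [Complex.sub_re, Complex.re_ofNat] at h1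
  have h2 := inv_pos' hn
  rw [rad_eq] at hs
  simp only [HP, Set.mem_ofPred_eq]
  linarith [h1.1]

theorem circle_facts {n : ℕ} (hn : 1 ≤ n) {s : ℂ} (hs : ‖s - 2‖ = 1 + rad n) :
    1 - 1 / (n : ℝ) / 3 ≤ s.re ∧ s.re ≤ 4 ∧ ‖s‖ ≤ 10 / 3 ∧ rad n ≤ ‖s - 1‖ ∧ ‖s - 1‖ ≤ 3 := by
  have h1 := abs_le.1 (Complex.abs_re_le_norm (s - 2))
  simp only [Complex.sub_re, Complex.re_ofNat] at h1
  have h2 := inv_pos' hn
  have h3 := inv_le' hn
  rw [rad_eq] at hs ⊢
  have h4 : ‖s‖ ≤ ‖s - 2‖ + 2 := by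
    have : s = (s - 2) + 2 := by ring
    calc ‖s‖ = ‖(s - 2) + 2‖ := by rw [← this]
      _ ≤ ‖s - 2‖ + ‖(2 : ℂ)‖ := norm_add_le _ _
      _ = _ := by norm_num
  have h5 : ‖s - 2‖ ≤ ‖s - 1‖ + 1 := by
    have : s - 2 = (s - 1) - 1 := by ring
    rw [this]
    refine (norm_sub_le _ _).trans ?_
    rw [norm_one]
  have h6 : ‖s - 1‖ ≤ ‖s - 2‖ + 1 := by
    have : s - 1 = (s - 2) + 1 := by ring
    rw [this]
    refine (norm_add_le _ _).trans ?_
    rw [norm_one]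
  refine ⟨by linarith [h1.1], by linarith [h1.2], by linarith, by linarith, by linarith⟩

/-- a bound of the form of `Cont` on the circle and at `1` -/
theorem circle_bound {n : ℕ} (hn : 1 ≤ n) {F : ℂ → ℂ} {C : ℝ} (hC : 0 ≤ C)
    (h : ∀ s : ℂ, 1 - 1 / (n : ℝ) < s.re → s.re ≤ 4 → ‖F s‖ ≤
      C * (1 + ‖s‖) / (s.re - (1 - 1 / (n : ℝ)))) :
    (∀ s : ℂ, ‖s - 2‖ = 1 + rad n → ‖F s‖ ≤ 7 * n * C) ∧ ‖F 1‖ ≤ 7 * n * C := by
  have h2 := inv_pos' hn
  have hn' : (1 : ℝ) ≤ n := by exact_mod_cast hn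
  have hnn : (n : ℝ) * (1 / (n : ℝ)) = 1 := by
    rw [mul_one_div, div_self (by linarith)]
  constructor
  · intro s hs
    obtain ⟨h3, h4, h5, -, -⟩ := circle_facts hn hs
    refine (h s (by linarith) h4).trans ?_
    rw [div_le_iff₀ (by linarith)]
    have h6 : 2 / 3 * (1 / (n : ℝ)) ≤ s.re - (1 - 1 / (n : ℝ)) := by linarith
    have h7 : C * (1 + ‖s‖) ≤ C * (13 / 3) := mul_le_mul_of_nonneg_left (by linarith) hC
    have h8 : 7 * n * C * (2 / 3 * (1 / (n : ℝ))) ≤ 7 * n * C * (s.re - (1 - 1 / (n : ℝ))) :=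
      mul_le_mul_of_nonneg_left h6 (by positivity)
    have h9 : 7 * n * C * (2 / 3 * (1 / (n : ℝ))) = C * (14 / 3) := by
      calc 7 * n * C * (2 / 3 * (1 / (n : ℝ))) = C * (14 / 3) * (n * (1 / (n : ℝ))) := by ring
        _ = _ := by rw [hnn, mul_one]
    have h10 : C * (13 / 3) ≤ C * (14 / 3) := mul_le_mul_of_nonneg_left (by norm_num) hC
    linarith
  · have h3 := h 1 (by rw [Complex.one_re]; linarith) (by rw [Complex.one_re]; norm_num)
    refine h3.trans ?_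
    rw [Complex.one_re, norm_one, div_le_iff₀ (by linarith)]
    have h9 : 7 * n * C * (1 - (1 - 1 / (n : ℝ))) = C * 7 := by
      calc 7 * n * C * (1 - (1 - 1 / (n : ℝ))) = C * 7 * (n * (1 / (n : ℝ))) := by ring
        _ = _ := by rw [hnn, mul_one]
    rw [h9]
    nlinarith

/-- `LF` of a real sequence commutes with conjugation -/
theorem LF_conj {a : ℕ → ℂ} (ha : ∀ m, (starRingEnd ℂ) (a m) = a m) (s : ℂ) :
    (starRingEnd ℂ) (LF a s) = LF a ((starRingEnd ℂ) s) := by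
  unfold LF
  rw [map_add, ha, Complex.conj_tsum]
  congr 1
  refine tsum_congr fun j => ?_
  rw [map_sum]
  refine Finset.sum_congr rfl fun m hm => ?_
  rw [map_mul, map_mul, ha, Complex.conj_ofReal]
  congr 2
  have harg : (m : ℂ).arg ≠ Real.pi := by
    rw [Complex.natCast_arg]
    exact Real.pi_pos.ne
  rw [← map_neg, Complex.cpow_conj _ _ harg, Complex.conj_natCast]

theorem tw_conj (r : ArithmeticFunction ℝ) {q : ℕ} [NeZero q] {χ : DirichletCharacter ℂ q}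
    (hχ : χ ^ 2 = 1) (m : ℕ) : (starRingEnd ℂ) (tw r χ m) = tw r χ m := by
  unfold tw
  rw [map_mul, Complex.conj_ofReal, Pool.Agent.Helper37.BV.conj_apply hχ]

theorem LF_im (r : ArithmeticFunction ℝ) {q : ℕ} [NeZero q] {χ : DirichletCharacter ℂ q}
    (hχ : χ ^ 2 = 1) (x : ℝ) : (LF (tw r χ) x).im = 0 := by
  have h := LF_conj (tw_conj r hχ) (x : ℂ)
  rw [Complex.conj_ofReal] at h
  exact Complex.conj_eq_iff_im.1 h

theorem LF_ofReal (r : ArithmeticFunction ℝ) {q : ℕ} [NeZero q] {χ : DirichletCharacter ℂ q}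
    (hχ : χ ^ 2 = 1) (x : ℝ) : LF (tw r χ) x = ((LF (tw r χ) x).re : ℂ) := by
  apply Complex.ext
  · simp
  · simp [LF_im r hχ x]

/-- the value at `2` of the trivial L-series is real and nonnegative -/
theorem cr_two {n : ℕ} {r L : ArithmeticFunction ℝ} {κ : ℝ} (hs : IsSys n r L κ) :
    (LSeries (cr r) 2).im = 0 ∧ 0 ≤ (LSeries (cr r) 2).re := by
  have hterm : ∀ m : ℕ, LSeries.term (cr r) 2 m = ((r m / (m : ℝ) ^ 2 : ℝ) : ℂ) := by
    intro m
    rcases eq_or_ne m 0 with rfl | hm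
    · simp [LSeries.term_zero]
    · rw [LSeries.term_of_ne_zero hm]
      unfold cr
      push_cast
      congr 1
      have : (2 : ℂ) = ((2 : ℕ) : ℂ) := by norm_num
      rw [this, Complex.cpow_natCast]
  have h1 : LSeries (cr r) 2 = ((∑' m : ℕ, r m / (m : ℝ) ^ 2 : ℝ) : ℂ) := by
    rw [LSeries, Complex.ofReal_tsum]
    exact tsum_congr hterm
  rw [h1, Complex.ofReal_im, Complex.ofReal_re]
  refine ⟨rfl, tsum_nonneg fun m => ?_⟩
  have := hs.r_nonneg m
  positivity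

section Fixed

variable {n : ℕ} {r L : ArithmeticFunction ℝ} {κ : ℝ} (hs : IsSys n r L κ)
  {Z0 : ℂ → ℂ} (hZ : DifferentiableOn ℂ Z0 (HP n))
  (hZs : ∀ s : ℂ, 1 < s.re → LSeries (cr r) s = κ / (s - 1) + Z0 s)
  (hL : ∀ (q : ℕ) [NeZero q] (χ : DirichletCharacter ℂ q), χ ≠ 1 →
    DifferentiableOn ℂ (LF (tw r χ)) (HP n) ∧
      ∀ s : ℂ, 1 < s.re → LF (tw r χ) s = LSeries (tw r χ) s)

include hs hZ hZs hL

/-- no real zeros in `(1, 2]` -/
theorem ne_zero_right (h5 : AltOneF) {q : ℕ} [NeZero q] {χ : DirichletCharacter ℂ q}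
    (hχ : χ ^ 2 = 1) (hχ1 : χ ≠ 1) {x : ℝ} (hx : 1 < x) (hx2 : x ≤ 2) : LF (tw r χ) x ≠ 0 := by
  intro h0
  obtain ⟨halt, h2⟩ := h5 n r L κ hs q χ hχ
  set f : ℂ → ℂ := fun s => LSeries (cr r) s * LSeries (tw r χ) s with hf
  have hball : ∀ s ∈ Metric.ball (2 : ℂ) ((1 : NNReal) : ℝ), 1 < s.re := by
    intro s hs'
    rw [Metric.mem_ball, dist_eq_norm, NNReal.coe_one] at hs'
    have h1 := abs_le.1 (Complex.abs_re_le_norm (s - 2))
    simp only [Complex.sub_re, Complex.re_ofNat] at h1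
    linarith [h1.1]
  have hd : DifferentiableOn ℂ f (Metric.ball (2 : ℂ) ((1 : NNReal) : ℝ)) := by
    have h3 : DifferentiableOn ℂ (fun s => (κ / (s - 1) + Z0 s) * LF (tw r χ) s)
        (Metric.ball (2 : ℂ) ((1 : NNReal) : ℝ)) := by
      refine DifferentiableOn.mul (DifferentiableOn.add ?_ (hZ.mono fun s hs' =>
        mem_HP_of_one_lt hs.pos (hball s hs'))) ((hL q χ hχ1).1.mono fun s hs' =>
        mem_HP_of_one_lt hs.pos (hball s hs'))
      refine DifferentiableOn.div (differentiableOn_const _)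
        (differentiableOn_id.sub_const 1) fun s hs' => ?_
      intro h4
      have h5 := hball s hs'
      have h6 : s = 1 := sub_eq_zero.1 h4
      rw [h6, Complex.one_re] at h5
      exact lt_irrefl _ h5
    refine h3.congr fun s hs' => ?_
    rw [hf]
    simp only
    rw [hZs s (hball s hs'), (hL q χ hχ1).2 s (hball s hs')]
  have hxb : (x : ℂ) ∈ Metric.ball (2 : ℂ) ((1 : NNReal) : ℝ) := by
    rw [Metric.mem_ball, dist_eq_norm, NNReal.coe_one]
    have : (x : ℂ) - 2 = ((x - 2 : ℝ) : ℂ) := by push_cast; ring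
    rw [this, Complex.norm_real, Real.norm_eq_abs, abs_lt]
    constructor <;> linarith
  have hsum := Complex.hasSum_taylorSeries_on_ball hd hxb
  have hfx : f x = 0 := by
    rw [hf]
    simp only
    rw [← (hL q χ hχ1).2 x (hball _ hxb), h0, mul_zero]
  rw [hfx] at hsum
  have hre := Complex.hasSum_re hsum
  rw [Complex.zero_re] at hre
  have hnn : ∀ m : ℕ, 0 ≤ (((m.factorial : ℂ)⁻¹ • ((x : ℂ) - 2) ^ m • iteratedDeriv m f 2)).re := by
    intro m
    have e1 : ((m.factorial : ℂ)⁻¹ • ((x : ℂ) - 2) ^ m • iteratedDeriv m f 2) =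
        (((m.factorial : ℝ)⁻¹ * (2 - x) ^ m : ℝ) : ℂ) * ((-1 : ℂ) ^ m * iteratedDeriv m f 2) := by
      simp only [smul_eq_mul]
      push_cast
      have : ((x : ℂ) - 2) ^ m = (2 - (x : ℂ)) ^ m * (-1) ^ m := by
        rw [← mul_pow]
        congr 1
        ring
      rw [this]
      ring
    rw [e1, Complex.re_ofReal_mul]
    have : (0 : ℝ) ≤ 2 - x := by linarith
    exact mul_nonneg (by positivity) (halt m)
  have h0' := hre.nonneg
  have hle := le_hasSum hre 0 fun m _ => hnn m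
  simp only [Nat.factorial_zero, Nat.cast_one, inv_one, pow_zero, one_smul,
    iteratedDeriv_zero] at hle
  linarith

theorem nonneg_of_no_zero (h5 : AltOneF) (h7 : NonVanF) {q : ℕ} [NeZero q]
    {χ : DirichletCharacter ℂ q} (hχ : χ ^ 2 = 1) (hχ1 : χ ≠ 1) (β : ℝ)
    (hβn : 1 - 1 / (n : ℝ) < β) (hβ : β < 1)
    (h : ∀ x : ℝ, β ≤ x → x < 1 → LF (tw r χ) x ≠ 0) : 0 ≤ (LF (tw r χ) β).re := by
  by_contra hneg
  push Not at hneg
  have h2 : 0 < (LF (tw r χ) 2).re := by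
    have h3 := (h5 n r L κ hs q χ hχ).2
    obtain ⟨h4, h6⟩ := cr_two hs
    rw [← (hL q χ hχ1).2 2 (by simp), Complex.mul_re, h4, zero_mul, sub_zero] at h3
    by_contra h7
    push Not at h7
    nlinarith
  have hcont : ContinuousOn (fun x : ℝ => (LF (tw r χ) x).re) (Set.Icc β 2) := by
    refine Complex.continuous_re.comp_continuousOn ?_
    refine (hL q χ hχ1).1.continuousOn.comp Complex.continuous_ofReal.continuousOn ?_
    intro x hx
    simp only [HP, Set.mem_ofPred_eq, Complex.ofReal_re]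
    linarith [hx.1]
  have hmem : (0 : ℝ) ∈ Set.Icc ((fun x : ℝ => (LF (tw r χ) x).re) β)
      ((fun x : ℝ => (LF (tw r χ) x).re) 2) := by
    constructor
    · exact hneg.le
    · have : ((2 : ℝ) : ℂ) = 2 := by norm_num
      simp only [this]
      exact h2.le
  obtain ⟨x, hx, hx0⟩ := intermediate_value_Icc (by linarith : β ≤ 2) hcont hmem
  have hx0' : LF (tw r χ) x = 0 := by
    rw [LF_ofReal r hχ x]
    have : (LF (tw r χ) x).re = 0 := hx0
    rw [this, Complex.ofReal_zero]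
  rcases lt_trichotomy x 1 with h1 | h1 | h1
  · exact h x hx.1 h1 hx0'
  · rw [h1, Complex.ofReal_one] at hx0'
    exact h7 n r L κ hs q χ hχ1 hx0'
  · exact ne_zero_right hs hZ hZs hL h5 hχ hχ1 h1 hx.2 hx0'

end Fixed

/-- Estermann's lemma for `Z * La` -/
theorem estermann_apply (h3 : EstermannR) {n : ℕ} (hn : 1 ≤ n) {r : ArithmeticFunction ℝ} {κ : ℝ}
    (hκ : 0 < κ) {Z0 : ℂ → ℂ} {CZ : ℝ} (hCZ : 0 < CZ) (hZ : DifferentiableOn ℂ Z0 (HP n))
    (hZs : ∀ s : ℂ, 1 < s.re → LSeries (cr r) s = κ / (s - 1) + Z0 s)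
    (hZb : ∀ s : ℂ, 1 - 1 / (n : ℝ) < s.re → s.re ≤ 4 → ‖Z0 s‖ ≤
        CZ * (1 + ‖s‖) / (s.re - (1 - 1 / (n : ℝ)))) :
    ∃ c K A : ℝ, 0 < c ∧ 0 < K ∧ 1 ≤ A ∧
    ∀ (f La : ℂ → ℂ) (l B β : ℝ), DifferentiableOn ℂ La (HP n) → La 1 = l →
      (∀ s : ℂ, 1 < s.re → f s = LSeries (cr r) s * La s) →
      (∀ m : ℕ, 0 ≤ ((-1 : ℂ) ^ m * iteratedDeriv m f 2).re) →
      1 ≤ (f 2).re → 1 ≤ B → (∀ s : ℂ, ‖s - 2‖ = 1 + rad n → ‖La s‖ ≤ B) →
      |l| ≤ B → 1 - rad n / 4 ≤ β → β < 1 → ((κ / ((β : ℂ) - 1) + Z0 β) * La β).re ≤ 0 →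
      c * (1 - β) * (A * B) ^ (-(K * (1 - β))) ≤ κ * l := by
  have hn' : (1 : ℝ) ≤ n := by exact_mod_cast hn
  have hrad0 : 0 < rad n := by unfold rad; positivity
  have hrad1 : rad n ≤ 1 / 3 := by
    rw [rad_eq]
    linarith [inv_le' hn]
  obtain ⟨c, K, hc, hK, h⟩ := h3 (rad n) hrad0 hrad1
  have hC := (circle_bound hn hCZ.le hZb).1
  set C : ℝ := 7 * n * CZ with hCdef
  have hC0 : 0 ≤ C := by positivity
  refine ⟨c, K, (2 * κ + 3 * C) / rad n + 1, hc, hK, by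
    have : 0 ≤ (2 * κ + 3 * C) / rad n := by positivity
    linarith, ?_⟩
  intro f La l B β hLa h1 hfL halt h2 hB hbd hlam hβ hβ1 hneg
  set H : ℂ → ℂ := fun s => (κ + (s - 1) * Z0 s) * La s with hH
  have hH1 : H 1 = ((κ * l : ℝ) : ℂ) := by
    rw [hH]
    simp only [sub_self, zero_mul, add_zero, h1]
    push_cast
    ring
  have hHd : DifferentiableOn ℂ H (HP n) :=
    ((differentiableOn_const _).add ((differentiableOn_id.sub_const 1).mul hZ)).mul hLa
  have hG : ∀ s : ℂ, s ≠ 1 → dslope H 1 s = (H s - ((κ * l : ℝ) : ℂ)) / (s - 1) := by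
    intro s hs
    rw [dslope_of_ne _ hs, slope_def_field, hH1]
  have hf : ∀ s : ℂ, s ≠ 1 → (κ / (s - 1) + Z0 s) * La s =
      ((κ * l : ℝ) : ℂ) / (s - 1) + dslope H 1 s := by
    intro s hs
    have hs' : s - 1 ≠ 0 := sub_ne_zero.2 hs
    rw [hG s hs, ← add_div, add_sub_cancel, hH]
    simp only
    field_simp
  have hB0 : 0 ≤ B := by linarith
  apply h f (dslope H 1) (κ * l) (((2 * κ + 3 * C) / rad n + 1) * B) β halt h2
  · have : 0 ≤ (2 * κ + 3 * C) / rad n := by positivity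
    nlinarith
  · intro s hs
    have hne : s ≠ 1 := by
      intro h4
      rw [h4] at hs
      simp at hs
    rw [hfL s hs, hZs s hs, hf s hne]
  · exact ((Complex.differentiableOn_dslope ((isOpen_HP n).mem_nhds (one_mem_HP hn))).2
      hHd).mono (ball_sub hn)
  · intro s hs
    obtain ⟨-, -, -, hs1, hs3⟩ := circle_facts hn hs
    have hne : s ≠ 1 := by
      intro h6
      rw [h6, sub_self, norm_zero] at hs1
      linarith
    have hpos : 0 < ‖s - 1‖ := by linarith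
    rw [hG s hne, norm_div, div_le_iff₀ hpos]
    have h7 : ‖H s‖ ≤ (κ + 3 * C) * B := by
      rw [hH]
      simp only
      rw [norm_mul]
      refine mul_le_mul ?_ (hbd s hs) (norm_nonneg _) (by positivity)
      refine (norm_add_le _ _).trans ?_
      rw [Complex.norm_real, Real.norm_eq_abs, abs_of_pos hκ, norm_mul]
      have := mul_le_mul hs3 (hC s hs) (norm_nonneg _) (by norm_num)
      linarith
    have h8 : ‖((κ * l : ℝ) : ℂ)‖ ≤ κ * B := by
      rw [Complex.norm_real, Real.norm_eq_abs, abs_mul, abs_of_pos hκ]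
      exact mul_le_mul_of_nonneg_left hlam hκ.le
    have h9 : ‖H s - ((κ * l : ℝ) : ℂ)‖ ≤ (2 * κ + 3 * C) * B := by
      refine (norm_sub_le _ _).trans ?_
      linarith
    have h10 : (2 * κ + 3 * C) * B ≤ (2 * κ + 3 * C) / rad n * B * ‖s - 1‖ := by
      calc (2 * κ + 3 * C) * B = (2 * κ + 3 * C) / rad n * B * rad n := by
            field_simp
        _ ≤ _ := mul_le_mul_of_nonneg_left hs1 (by positivity)
    have h11 : 0 ≤ B * ‖s - 1‖ := by positivity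
    calc ‖H s - ((κ * l : ℝ) : ℂ)‖ ≤ (2 * κ + 3 * C) * B := h9
      _ ≤ (2 * κ + 3 * C) / rad n * B * ‖s - 1‖ := h10
      _ ≤ ((2 * κ + 3 * C) / rad n + 1) * B * ‖s - 1‖ := by linarith
  · exact hβ
  · exact hβ1
  · have hne : (β : ℂ) ≠ 1 := by
      intro h3
      have : β = 1 := by exact_mod_cast h3
      linarith
    have h4 := hf β hne
    have h5 : dslope H 1 β = (κ / ((β : ℂ) - 1) + Z0 β) * La β + ((κ * l / (1 - β) : ℝ) : ℂ) := by
      have h6 : ((κ * l : ℝ) : ℂ) / ((β : ℂ) - 1) = -((κ * l / (1 - β) : ℝ) : ℂ) := by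
        push_cast
        rw [← neg_sub (1 : ℂ) (β : ℂ), div_neg]
      rw [h4, h6]
      ring
    rw [h5, Complex.add_re, Complex.ofReal_re]
    linarith

theorem same (r : ArithmeticFunction ℝ) {q q1 : ℕ} [NeZero q] [NeZero q1]
    {χ : DirichletCharacter ℂ q} {χ1 : DirichletCharacter ℂ q1} (hp : χ.IsPrimitive)
    (hp1 : χ1.IsPrimitive)
    (h : ∀ m : ℤ, IsCoprime m q → IsCoprime m q1 → χ m = χ1 m) :
    LF (tw r χ) 1 = LF (tw r χ1) 1 := by
  open DirichletCharacter in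
  have hne : NeZero (q1 * q) := ⟨mul_ne_zero (NeZero.ne q1) (NeZero.ne q)⟩
  have hc : changeLevel (dvd_mul_left q q1) χ = changeLevel (dvd_mul_right q1 q) χ1 := by
    ext a
    have hcop := ZMod.val_coe_unit_coprime a
    have hcopZ : IsCoprime (((a : ZMod (q1 * q)).val : ℕ) : ℤ) ((q1 * q : ℕ) : ℤ) :=
      Nat.isCoprime_iff_coprime.2 hcop
    have ha : ((((a : ZMod (q1 * q)).val : ℕ) : ℤ) : ZMod (q1 * q)) = a := by
      push_cast
      rw [ZMod.natCast_zmod_val]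
    rw [← ha, changeLevel_eq_cast_of_dvd' _ _ hcopZ, changeLevel_eq_cast_of_dvd' _ _ hcopZ]
    apply h
    · push_cast at hcopZ ⊢
      exact hcopZ.of_mul_right_right
    · push_cast at hcopZ ⊢
      exact hcopZ.of_mul_right_left
  have hq : q = q1 := by
    have h2 := conductor_changeLevel χ (dvd_mul_left q q1)
    have h3 := conductor_changeLevel χ1 (dvd_mul_right q1 q)
    rw [hc, h3] at h2
    rw [← (isPrimitive_def χ).1 hp, ← (isPrimitive_def χ1).1 hp1, h2]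
  subst hq
  have : χ = χ1 := changeLevel_injective (dvd_mul_left q q) hc
  rw [this]

/-- the continued zeta function is negative to the left of `1` -/
theorem zt_neg {n : ℕ} (hn : 1 ≤ n) {κ : ℝ} (hκ : 0 < κ) {Z0 : ℂ → ℂ} {CZ : ℝ} (hCZ : 0 < CZ)
    (hZb : ∀ s : ℂ, 1 - 1 / (n : ℝ) < s.re → s.re ≤ 4 → ‖Z0 s‖ ≤
        CZ * (1 + ‖s‖) / (s.re - (1 - 1 / (n : ℝ)))) :
    ∃ δ : ℝ, 0 < δ ∧ ∀ β : ℝ, 1 - δ < β → β < 1 → ((κ : ℂ) / ((β : ℂ) - 1) + Z0 β).re < 0 := by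
  have hn' : (1 : ℝ) ≤ n := by exact_mod_cast hn
  have h2 := inv_pos' hn
  have h3 := inv_le' hn
  have hnn : (n : ℝ) * (1 / (n : ℝ)) = 1 := by
    rw [mul_one_div, div_self (by linarith)]
  refine ⟨min (1 / (n : ℝ) / 2) (κ / (4 * n * CZ)), lt_min (by linarith) (by positivity),
    fun β hβ hβ1 => ?_⟩
  have e1 : 1 - β < 1 / (n : ℝ) / 2 := by
    have := min_le_left (1 / (n : ℝ) / 2) (κ / (4 * n * CZ))
    linarith
  have e2 : 1 - β < κ / (4 * n * CZ) := by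
    have := min_le_right (1 / (n : ℝ) / 2) (κ / (4 * n * CZ))
    linarith
  rw [lt_div_iff₀ (by positivity)] at e2
  have e3 := hZb (β : ℂ) (by rw [Complex.ofReal_re]; linarith) (by rw [Complex.ofReal_re]; linarith)
  rw [Complex.ofReal_re, Complex.norm_real, Real.norm_eq_abs, abs_of_pos (by linarith)] at e3
  have e4 : ‖Z0 β‖ ≤ 4 * n * CZ := by
    refine e3.trans ?_
    rw [div_le_iff₀ (by linarith)]
    have h6 : 1 / 2 * (1 / (n : ℝ)) ≤ β - (1 - 1 / (n : ℝ)) := by linarith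
    have h7 : CZ * (1 + β) ≤ CZ * 2 := mul_le_mul_of_nonneg_left (by linarith) hCZ.le
    have h8 : 4 * n * CZ * (1 / 2 * (1 / (n : ℝ))) ≤ 4 * n * CZ * (β - (1 - 1 / (n : ℝ))) :=
      mul_le_mul_of_nonneg_left h6 (by positivity)
    have h9 : 4 * n * CZ * (1 / 2 * (1 / (n : ℝ))) = CZ * 2 := by
      calc 4 * n * CZ * (1 / 2 * (1 / (n : ℝ))) = CZ * 2 * (n * (1 / (n : ℝ))) := by ring
        _ = _ := by rw [hnn, mul_one]
    linarith
  have e5 : (κ : ℂ) / ((β : ℂ) - 1) = ((κ / (β - 1) : ℝ) : ℂ) := by push_cast; ring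
  rw [e5, Complex.add_re, Complex.ofReal_re]
  have e6 : κ / (β - 1) < -(4 * n * CZ) := by
    rw [div_lt_iff_of_neg (by linarith)]
    linarith
  have e7 := Complex.re_le_norm (Z0 β)
  linarith

theorem siegelF (h1 : Cont) (h2 : Cont0) (h3 : LUpperF) (h4 : EstermannR) (h5 : AltF)
    (h6 : AltOneF) (h7 : NonVanF) : SiegelF := by
  intro n r L κ hs ε hε
  have hn := hs.pos
  have hn' : (1 : ℝ) ≤ n := by exact_mod_cast hn
  have hκ := hs.kpos
  obtain ⟨C1, hC1, hcont⟩ := h1 n r L κ hs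
  obtain ⟨CZ, Z0, hCZ, hZ, hZs, hZb⟩ := h2 n r L κ hs
  obtain ⟨c, K, A, hc, hK, hA, hE⟩ := estermann_apply h4 hn hκ hCZ hZ hZs hZb
  obtain ⟨δ, hδ, hz⟩ := zt_neg hn hκ hCZ hZb
  set D : ℝ := 7 * n * C1 + 1 with hD
  have hD1 : 1 ≤ D := by
    have : 0 ≤ 7 * n * C1 := by positivity
    linarith
  have hL : ∀ (q : ℕ) [NeZero q] (χ : DirichletCharacter ℂ q), χ ≠ 1 →
      DifferentiableOn ℂ (LF (tw r χ)) (HP n) ∧
        ∀ s : ℂ, 1 < s.re → LF (tw r χ) s = LSeries (tw r χ) s :=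
    fun q _ χ hχ => ⟨(hcont q χ hχ).1, (hcont q χ hχ).2.1⟩
  have hbd : ∀ (q : ℕ) [NeZero q] (χ : DirichletCharacter ℂ q), χ ≠ 1 →
      (∀ s : ℂ, ‖s - 2‖ = 1 + rad n → ‖LF (tw r χ) s‖ ≤ D * (q : ℝ) ^ n) ∧
        ‖LF (tw r χ) 1‖ ≤ D * (q : ℝ) ^ n := by
    intro q _ χ hχ
    obtain ⟨e1, e2⟩ := circle_bound hn (F := LF (tw r χ)) (C := C1 * (q : ℝ) ^ n) (by positivity)
      (hcont q χ hχ).2.2
    have e3 : 7 * n * (C1 * (q : ℝ) ^ n) ≤ D * (q : ℝ) ^ n := by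
      have : 0 ≤ (q : ℝ) ^ n := by positivity
      rw [hD]
      nlinarith
    exact ⟨fun s hs => (e1 s hs).trans e3, e2.trans e3⟩
  set e : ℝ := min (min (rad n / 4) δ) (ε / (4 * n * K)) with he
  have hrad0 : 0 < rad n := by unfold rad; positivity
  have he0 : 0 < e := lt_min (lt_min (by linarith) hδ) (by positivity)
  have he1 : e ≤ rad n / 4 := (min_le_left _ _).trans (min_le_left _ _)
  have he2 : e ≤ δ := (min_le_left _ _).trans (min_le_right _ _)
  have he3 : n * (K * e) ≤ ε / 4 := by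
    have : e ≤ ε / (4 * n * K) := min_le_right _ _
    rw [le_div_iff₀ (by positivity)] at this
    linarith
  have hinv : rad n = 1 / (n : ℝ) / 3 := rad_eq n
  have hinv0 := inv_pos' hn
  have hinv1 := inv_le' hn
  by_cases hno : ∀ (q : ℕ) [NeZero q] (χ : DirichletCharacter ℂ q), χ.IsPrimitive → χ ≠ 1 →
      χ ^ 2 = 1 → ∀ x : ℝ, 1 - e < x → x < 1 → LF (tw r χ) x ≠ 0
  · -- no exceptional zeros
    refine ⟨c * (e / 2) * (A * D) ^ (-(K * (e / 2))) / κ, by positivity, ?_⟩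
    intro q _ χ hp hχ1 hχ2
    have hq : (1 : ℝ) ≤ q := by exact_mod_cast NeZero.one_le
    have hqn : (1 : ℝ) ≤ (q : ℝ) ^ n := one_le_pow₀ hq
    have hr := LF_ofReal r hχ2 1
    rw [Complex.ofReal_one] at hr
    obtain ⟨halt, halt2⟩ := h6 n r L κ hs q χ hχ2
    have hB : (1 : ℝ) ≤ D * (q : ℝ) ^ n := by nlinarith
    have h8 := hE (fun s => LSeries (cr r) s * LSeries (tw r χ) s) (LF (tw r χ))
      (LF (tw r χ) 1).re (D * (q : ℝ) ^ n) (1 - e / 2) (hL q χ hχ1).1 hr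
      (fun s hs1 => by rw [(hL q χ hχ1).2 s hs1]) halt halt2 hB (hbd q χ hχ1).1
      ((Complex.abs_re_le_norm _).trans (hbd q χ hχ1).2) (by linarith) (by linarith) (by
        rw [LF_ofReal r hχ2, mul_comm, Complex.re_ofReal_mul]
        have h9 := nonneg_of_no_zero hs hZ hZs hL h6 h7 hχ2 hχ1 (1 - e / 2) (by linarith)
          (by linarith) (fun x hx hx1 => hno q χ hp hχ1 hχ2 x (by linarith) hx1)
        have h10 := hz (1 - e / 2) (by linarith) (by linarith)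
        nlinarith)
    have h9 : (LF (tw r χ) 1).re ≤ ‖LF (tw r χ) 1‖ := Complex.re_le_norm _
    have h10 : (1 : ℝ) - (1 - e / 2) = e / 2 := by ring
    rw [h10, ← mul_assoc A D, Real.mul_rpow (x := A * D) (y := (q : ℝ) ^ n) (by positivity)
      (by positivity), ← mul_assoc] at h8
    have h11 : (q : ℝ) ^ (-ε) ≤ ((q : ℝ) ^ n) ^ (-(K * (e / 2))) := by
      rw [← Real.rpow_natCast, ← Real.rpow_mul (by linarith)]
      apply Real.rpow_le_rpow_of_exponent_le hq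
      have : n * (K * (e / 2)) = n * (K * e) / 2 := by ring
      linarith
    have h12 : c * (e / 2) * (A * D) ^ (-(K * (e / 2))) * (q : ℝ) ^ (-ε) ≤
        κ * ‖LF (tw r χ) 1‖ := by
      refine le_trans (mul_le_mul_of_nonneg_left h11 (by positivity)) (h8.trans ?_)
      exact mul_le_mul_of_nonneg_left h9 hκ.le
    rw [div_mul_eq_mul_div, div_le_iff₀ hκ]
    linarith
  · -- one exceptional zero
    push Not at hno
    obtain ⟨q1, hq1', χ1, hp1, hχ11, hχ12, b, hb, hb1, hzero⟩ := hno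
    obtain ⟨ρ', C, hr, hr4, hC, hU⟩ := h3 n r L κ hs (ε / 2) (by positivity)
    have hL1 : LF (tw r χ1) 1 ≠ 0 := h7 n r L κ hs q1 χ1 hχ11
    have hL1n : 0 < ‖LF (tw r χ1) 1‖ := norm_pos_iff.2 hL1
    have hq1 : (1 : ℝ) ≤ q1 := by exact_mod_cast NeZero.one_le
    have h1b : 0 < 1 - b := by linarith
    set a : ℝ := K * (1 - b) with ha
    have ha0 : 0 < a := by positivity
    have ha1 : 2 * n * a ≤ ε / 2 := by
      have : n * (K * (1 - b)) ≤ n * (K * e) := mul_le_mul_of_nonneg_left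
        (mul_le_mul_of_nonneg_left (by linarith) hK.le) (by linarith)
      rw [ha]
      linarith
    set N : ℝ := c * (1 - b) * (A * (D ^ 3 * (q1 : ℝ) ^ (2 * n))) ^ (-a) with hN
    set M : ℝ := κ * ‖LF (tw r χ1) 1‖ * (C * (q1 : ℝ) ^ (ε / 2)) with hM
    have hN0 : 0 < N := by positivity
    have hM0 : 0 < M := by positivity
    refine ⟨min ‖LF (tw r χ1) 1‖ (N / M), lt_min hL1n (by positivity), ?_⟩
    intro q _ χ hp hχ1 hχ2
    have hq : (1 : ℝ) ≤ q := by exact_mod_cast NeZero.one_le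
    have hqe0 : (0 : ℝ) < (q : ℝ) ^ (-ε) := by positivity
    by_cases hS : ∀ m : ℤ, IsCoprime m q → IsCoprime m q1 → χ m = χ1 m
    · rw [same r hp hp1 hS]
      have hqe : (q : ℝ) ^ (-ε) ≤ 1 := Real.rpow_le_one_of_one_le_of_nonpos hq (by linarith)
      have := min_le_left ‖LF (tw r χ1) 1‖ (N / M)
      calc min ‖LF (tw r χ1) 1‖ (N / M) * (q : ℝ) ^ (-ε)
          ≤ ‖LF (tw r χ1) 1‖ * 1 := mul_le_mul this hqe hqe0.le (norm_nonneg _)
        _ = ‖LF (tw r χ1) 1‖ := mul_one _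
    · push Not at hS
      obtain ⟨χ3, h31, h32, h33⟩ := Pool.Agent.Helper37.BV.chi3 hχ2 hχ12 hS
      have hne : NeZero (q1 * q) := ⟨mul_ne_zero (NeZero.ne q1) (NeZero.ne q)⟩
      obtain ⟨halt, halt2⟩ := h5 n r L κ hs q1 q (q1 * q) χ1 χ χ3 hχ12 hχ2 h33
      set La : ℂ → ℂ := fun s => LF (tw r χ1) s * LF (tw r χ) s * LF (tw r χ3) s with hLa
      have hfL : ∀ s : ℂ, 1 < s.re → LSeries (cr r) s * LSeries (tw r χ1) s *
          LSeries (tw r χ) s * LSeries (tw r χ3) s = LSeries (cr r) s * La s := by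
        intro s hs1
        rw [hLa]
        simp only
        rw [(hL q1 χ1 hχ11).2 s hs1, (hL q χ hχ1).2 s hs1, (hL _ χ3 h31).2 s hs1]
        ring
      have hr1 := LF_ofReal r hχ12 1
      have hr2 := LF_ofReal r hχ2 1
      have hr3 := LF_ofReal r h32 1
      rw [Complex.ofReal_one] at hr1 hr2 hr3
      set lam : ℝ := (LF (tw r χ1) 1).re * (LF (tw r χ) 1).re * (LF (tw r χ3) 1).re with hlam
      have hLa1 : La 1 = lam := by
        rw [hlam]
        push_cast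
        rw [← hr1, ← hr2, ← hr3]
      have habs : |lam| = ‖LF (tw r χ1) 1‖ * ‖LF (tw r χ) 1‖ * ‖LF (tw r χ3) 1‖ := by
        have : |lam| = ‖(lam : ℂ)‖ := by rw [Complex.norm_real, Real.norm_eq_abs]
        rw [this, ← hLa1, hLa]
        simp only
        rw [norm_mul, norm_mul]
      have hcast : (((q1 * q : ℕ) : ℕ) : ℝ) = (q1 : ℝ) * q := by push_cast; ring
      have hprod : (D * (q1 : ℝ) ^ n) * (D * (q : ℝ) ^ n) * (D * ((q1 : ℝ) * q) ^ n) =
          D ^ 3 * (q1 : ℝ) ^ (2 * n) * (q : ℝ) ^ (2 * n) := by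
        rw [mul_pow, two_mul, pow_add, pow_add]
        ring
      have hB : (1 : ℝ) ≤ D ^ 3 * (q1 : ℝ) ^ (2 * n) * (q : ℝ) ^ (2 * n) := by
        have e6 : (1 : ℝ) ≤ (q1 : ℝ) ^ (2 * n) := one_le_pow₀ hq1
        have e7 : (1 : ℝ) ≤ (q : ℝ) ^ (2 * n) := one_le_pow₀ hq
        have e8 : (1 : ℝ) ≤ D ^ 3 := one_le_pow₀ hD1
        exact one_le_mul_of_one_le_of_one_le (one_le_mul_of_one_le_of_one_le e8 e6) e7
      have hdiff : DifferentiableOn ℂ La (HP n) :=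
        ((hL q1 χ1 hχ11).1.mul (hL q χ hχ1).1).mul (hL _ χ3 h31).1
      have hmul3 : ∀ s : ℂ, ‖LF (tw r χ1) s‖ ≤ D * (q1 : ℝ) ^ n → ‖LF (tw r χ) s‖ ≤
          D * (q : ℝ) ^ n → ‖LF (tw r χ3) s‖ ≤ D * ((q1 * q : ℕ) : ℝ) ^ n →
          ‖LF (tw r χ1) s‖ * ‖LF (tw r χ) s‖ * ‖LF (tw r χ3) s‖ ≤
            D ^ 3 * (q1 : ℝ) ^ (2 * n) * (q : ℝ) ^ (2 * n) := by
        intro s b1 b2 b3
        rw [hcast] at b3
        rw [← hprod]
        exact mul_le_mul (mul_le_mul b1 b2 (norm_nonneg _) (by positivity)) b3 (norm_nonneg _)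
          (by positivity)
      have hcirc : ∀ s : ℂ, ‖s - 2‖ = 1 + rad n → ‖La s‖ ≤
          D ^ 3 * (q1 : ℝ) ^ (2 * n) * (q : ℝ) ^ (2 * n) := by
        intro s hs2
        rw [hLa]
        simp only
        rw [norm_mul, norm_mul]
        exact hmul3 s ((hbd q1 χ1 hχ11).1 s hs2) ((hbd q χ hχ1).1 s hs2) ((hbd _ χ3 h31).1 s hs2)
      have hlamB : |lam| ≤ D ^ 3 * (q1 : ℝ) ^ (2 * n) * (q : ℝ) ^ (2 * n) := by
        rw [habs]
        exact hmul3 1 (hbd q1 χ1 hχ11).2 (hbd q χ hχ1).2 (hbd _ χ3 h31).2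
      have h8 := hE _ La lam (D ^ 3 * (q1 : ℝ) ^ (2 * n) * (q : ℝ) ^ (2 * n)) b hdiff hLa1 hfL
        halt halt2 hB hcirc hlamB (by linarith) hb1 (by
          have : La b = 0 := by
            rw [hLa]
            simp only
            rw [hzero, zero_mul, zero_mul]
          rw [this, mul_zero, Complex.zero_re])
      rw [← ha] at h8
      have h9 : c * (1 - b) * (A * (D ^ 3 * (q1 : ℝ) ^ (2 * n) * (q : ℝ) ^ (2 * n))) ^ (-a) =
          N * ((q : ℝ) ^ (2 * n)) ^ (-a) := by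
        rw [← mul_assoc A, Real.mul_rpow (by positivity) (by positivity), ← mul_assoc]
      have h10 : (q : ℝ) ^ (-(ε / 2)) ≤ ((q : ℝ) ^ (2 * n)) ^ (-a) := by
        rw [← Real.rpow_natCast, ← Real.rpow_mul (by linarith)]
        apply Real.rpow_le_rpow_of_exponent_le hq
        push_cast
        linarith
      have h11 : N * (q : ℝ) ^ (-(ε / 2)) ≤ κ * lam := by
        refine le_trans (mul_le_mul_of_nonneg_left h10 hN0.le) ?_
        rw [← h9]
        exact h8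
      have h12 : κ * lam ≤ ‖LF (tw r χ) 1‖ * (M * (q : ℝ) ^ (ε / 2)) := by
        have h13 := (hU (q1 * q) χ3 h31 1 (by simpa using hr.le)).1
        rw [hcast, Real.mul_rpow (by positivity) (by positivity)] at h13
        calc κ * lam ≤ κ * |lam| := mul_le_mul_of_nonneg_left (le_abs_self _) hκ.le
          _ = κ * (‖LF (tw r χ1) 1‖ * ‖LF (tw r χ) 1‖ * ‖LF (tw r χ3) 1‖) := by rw [habs]
          _ ≤ κ * (‖LF (tw r χ1) 1‖ * ‖LF (tw r χ) 1‖ *
                (C * ((q1 : ℝ) ^ (ε / 2) * (q : ℝ) ^ (ε / 2)))) :=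
              mul_le_mul_of_nonneg_left (mul_le_mul_of_nonneg_left h13 (by positivity)) hκ.le
          _ = ‖LF (tw r χ) 1‖ * (M * (q : ℝ) ^ (ε / 2)) := by rw [hM]; ring
      have h13 : (0 : ℝ) < (q : ℝ) ^ (ε / 2) := by positivity
      have h14 : N / M * (q : ℝ) ^ (-ε) ≤ ‖LF (tw r χ) 1‖ := by
        have h15 : (q : ℝ) ^ (-ε) = (q : ℝ) ^ (-(ε / 2)) / (q : ℝ) ^ (ε / 2) := by
          rw [← Real.rpow_sub (by linarith)]
          congr 1
          ring
        rw [h15, div_mul_div_comm, div_le_iff₀ (by positivity)]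
        exact h11.trans h12
      refine le_trans (mul_le_mul_of_nonneg_right (min_le_right _ _) hqe0.le) h14

end Pool.Agent.Helper64.NF
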